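import Pool.Agent.W235.GG.Base

/-!
Special sets and hyperbolicity notions for complements of hypersurface sections in weighted
projective varieties.
-/

set_option autoImplicit false

namespace Pool.Agent.W235.GG

open MvPolynomial
open Pool.Agent.H159R3.Exp (Laur)

variable {n : ℕ} {ι : Type}

/-- The Zariski closure of `T` in `X` (points of the cone). -/
def zclosure (w : Fin n → ℕ) (G : ι → MvPolynomial (Fin n) ℂ) (B : MvPolynomial (Fin n) ℂ)
    (T : Set (Fin n → ℂ)) : Set (Fin n → ℂ) :=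
  {x | x ∈ Cone G B ∧ ∀ (H : MvPolynomial (Fin n) ℂ) (e : ℕ), IsWeightedHomogeneous w H e →
    (∀ y ∈ T, eval y H = 0) → eval x H = 0}

/-- `v` is a nonconstant morphism from the multiplicative group to `X` (given by Laurent
polynomials on the cone). -/
def TorusMap (w : Fin n → ℕ) (G : ι → MvPolynomial (Fin n) ℂ) (B : MvPolynomial (Fin n) ℂ)
    (v : ℂ → Fin n → ℂ) : Prop :=
  (∀ i, Laur fun t => v t i) ∧ (∀ t, t ≠ 0 → v t ∈ Cone G B) ∧ ∃ t, t ≠ 0 ∧ ¬ Same w (v 1) (v t)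

/-- `f` is a nonconstant entire curve in `X` (given by holomorphic functions on the cone). -/
def EntireCurve (w : Fin n → ℕ) (G : ι → MvPolynomial (Fin n) ℂ) (B : MvPolynomial (Fin n) ℂ)
    (f : ℂ → Fin n → ℂ) : Prop :=
  Differentiable ℂ f ∧ (∀ z, f z ∈ Cone G B) ∧ ∃ z z', ¬ Same w (f z) (f z')

/-- The punctured unit disc. -/
def disc : Set ℂ := {z | z ≠ 0 ∧ ‖z‖ < 1}

/-- `f` is a holomorphic map from the punctured disc to `X` (given by holomorphic functions on the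
cone) with an essential singularity at the origin: for some regular function `H / B ^ k` on `X`
the function `H (f z) / B (f z) ^ k` is not meromorphic at `0`. -/
def EssentialMap (w : Fin n → ℕ) (G : ι → MvPolynomial (Fin n) ℂ) (B : MvPolynomial (Fin n) ℂ)
    (δ : ℕ) (f : ℂ → Fin n → ℂ) : Prop :=
  DifferentiableOn ℂ f disc ∧ (∀ z ∈ disc, f z ∈ Cone G B) ∧
    ∃ (H : MvPolynomial (Fin n) ℂ) (k : ℕ), IsWeightedHomogeneous w H (k * δ) ∧
      ¬ MeromorphicAt (fun z => eval (f z) H / eval (f z) B ^ k) 0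

/-- Closure of the images of the nonconstant morphisms from the multiplicative group. -/
def SpTorus (w : Fin n → ℕ) (G : ι → MvPolynomial (Fin n) ℂ) (B : MvPolynomial (Fin n) ℂ) :
    Set (Fin n → ℂ) :=
  zclosure w G B {y | ∃ v, TorusMap w G B v ∧ ∃ t, t ≠ 0 ∧ Same w (v t) y}

/-- Closure of the images of the nonconstant entire curves. -/
def SpEntire (w : Fin n → ℕ) (G : ι → MvPolynomial (Fin n) ℂ) (B : MvPolynomial (Fin n) ℂ) :
    Set (Fin n → ℂ) :=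
  zclosure w G B {y | ∃ f, EntireCurve w G B f ∧ ∃ z, Same w (f z) y}

/-- Closure of the images of the maps from the punctured disc with an essential singularity. -/
def SpDisc (w : Fin n → ℕ) (G : ι → MvPolynomial (Fin n) ℂ) (B : MvPolynomial (Fin n) ℂ)
    (δ : ℕ) : Set (Fin n → ℂ) :=
  zclosure w G B {y | ∃ f, EssentialMap w G B δ f ∧ ∃ z ∈ disc, Same w (f z) y}

/-- The closed subset of `X` given by a set of weighted homogeneous polynomials. -/
def IsClosedIn (w : Fin n → ℕ) (G : ι → MvPolynomial (Fin n) ℂ) (B : MvPolynomial (Fin n) ℂ)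
    (Ξ : Set (Fin n → ℂ)) : Prop :=
  ∃ S : Set (MvPolynomial (Fin n) ℂ), (∀ H ∈ S, ∃ e, IsWeightedHomogeneous w H e) ∧
    Ξ = {x | x ∈ Cone G B ∧ ∀ H ∈ S, eval x H = 0}

/-- a proper closed subset contains all nonconstant entire curves -/
def PseudoBrody (w : Fin n → ℕ) (G : ι → MvPolynomial (Fin n) ℂ) (B : MvPolynomial (Fin n) ℂ) :
    Prop :=
  ∃ Ξ, IsClosedIn w G B Ξ ∧ Ξ ≠ Cone G B ∧ ∀ f, EntireCurve w G B f → ∀ z, f z ∈ Ξ

/-- every holomorphic map from the punctured disc which is not contained in a certain proper closed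
subset has no essential singularity -/
def PseudoPicard (w : Fin n → ℕ) (G : ι → MvPolynomial (Fin n) ℂ) (B : MvPolynomial (Fin n) ℂ)
    (δ : ℕ) : Prop :=
  ∃ Ξ, IsClosedIn w G B Ξ ∧ Ξ ≠ Cone G B ∧ ∀ f, EssentialMap w G B δ f → ∀ z ∈ disc, f z ∈ Ξ

/-- a proper closed subset contains the images of all nonconstant morphisms from the
multiplicative group -/
def PseudoTorus (w : Fin n → ℕ) (G : ι → MvPolynomial (Fin n) ℂ) (B : MvPolynomial (Fin n) ℂ) :
    Prop :=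
  ∃ Ξ, IsClosedIn w G B Ξ ∧ Ξ ≠ Cone G B ∧ ∀ v, TorusMap w G B v → ∀ t, t ≠ 0 → v t ∈ Ξ

variable [Fintype ι] {w : Fin n → ℕ} {G : ι → MvPolynomial (Fin n) ℂ} {d : ι → ℕ}
  {B : MvPolynomial (Fin n) ℂ} {δ : ℕ}

omit [Fintype ι] in
theorem not_same (hB : IsWeightedHomogeneous w B δ) {x y : Fin n → ℂ} (hx : eval x B = 1)
    (hy : eval y B = 1) {i : Fin n} (h : y i ^ δ ≠ x i ^ δ) : ¬ Same w x y := by
  rintro ⟨c, hc, rfl⟩
  rw [eval_act hB, hx, mul_one] at hy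
  apply h
  change (c ^ w i * x i) ^ δ = _
  rw [mul_pow, ← pow_mul, mul_comm (w i), pow_mul, hy, one_pow, one_mul]

theorem curves (hG : ∀ j, IsWeightedHomogeneous w (G j) (d j))
    (hB : IsWeightedHomogeneous w B δ) (hδ : 1 ≤ δ) (hle : ∑ j, d j + δ ≤ ∑ i, w i)
    (hne : ∃ v, 1 ≤ v ∧ (Finset.univ.filter fun i => w i = v).card ≠
      (Finset.univ.filter fun j => d j = v).card + if δ = v then 1 else 0)
    {x : Fin n → ℂ} (hx : x ∈ Cone G B) :
    (∃ v, TorusMap w G B v ∧ Same w x (v 1) ∧ ∀ i, w i = 0 → ∀ t, v t i = x i) ∧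
    (∃ f, EntireCurve w G B f ∧ Same w x (f 0) ∧ ∀ i, w i = 0 → ∀ z, f z i = x i) ∧
    (∃ f, EssentialMap w G B δ f ∧ (∃ z ∈ disc, Same w x (f z)) ∧
      ∀ i, w i = 0 → ∀ z, f z i = x i) := by
  obtain ⟨v, h1, h2, h3, h4, i, t, ht, h5⟩ := exists_curve hG hB hδ hle hne hx
  have hcone : ∀ t, t ≠ 0 → v t ∈ Cone G B := fun t ht =>
    ⟨(h2 t ht).1, by rw [(h2 t ht).2]; exact one_ne_zero⟩
  have hns : ¬ Same w (v 1) (v t) := not_same hB (h2 1 one_ne_zero).2 (h2 t ht).2 h5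
  refine ⟨⟨v, ⟨h1, hcone, t, ht, hns⟩, h3, h4⟩, ⟨fun z => v (Complex.exp z), ⟨?_, ?_, ?_⟩, ?_, ?_⟩,
    ⟨fun z => v (Complex.exp z⁻¹), ⟨?_, ?_, ?_⟩, ?_, ?_⟩⟩
  · exact differentiable_exp_comp h1
  · exact fun z => hcone _ (Complex.exp_ne_zero z)
  · exact ⟨0, Complex.log t, by simpa [Complex.exp_log ht] using hns⟩
  · simpa using h3
  · exact fun i hi z => h4 i hi _
  · have h6 := differentiable_exp_comp h1
    intro z hz
    have h7 : DifferentiableAt ℂ (fun z : ℂ => z⁻¹) z := differentiableAt_inv hz.1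
    exact ((h6 z⁻¹).comp z h7).differentiableWithinAt
  · exact fun z _ => hcone _ (Complex.exp_ne_zero _)
  · refine ⟨X i ^ δ, w i, ?_, ?_⟩
    · have h8 := (isWeightedHomogeneous_X ℂ w i).pow δ
      rw [smul_eq_mul, mul_comm] at h8
      exact h8
    · refine not_meromorphicAt (ψ := fun s => v s i ^ δ) (t := t) ?_ ht h5
      intro z _
      rw [(h2 _ (Complex.exp_ne_zero _)).2]
      simp
  · obtain ⟨z, hz, hz1, hz2⟩ := exists_small (one_ne_zero (α := ℂ)) (ε := 1) one_pos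
    exact ⟨z, ⟨hz, hz1⟩, by simpa [hz2] using h3⟩
  · exact fun i hi z => h4 i hi _

/-- **The special sets are everything.** -/
theorem special (hG : ∀ j, IsWeightedHomogeneous w (G j) (d j))
    (hB : IsWeightedHomogeneous w B δ) (hδ : 1 ≤ δ) (hle : ∑ j, d j + δ ≤ ∑ i, w i)
    (hne : ∃ v, 1 ≤ v ∧ (Finset.univ.filter fun i => w i = v).card ≠
      (Finset.univ.filter fun j => d j = v).card + if δ = v then 1 else 0) :
    SpTorus w G B = Cone G B ∧ SpEntire w G B = Cone G B ∧ SpDisc w G B δ = Cone G B := by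
  refine ⟨Set.Subset.antisymm (fun x hx => hx.1) fun x hx => ⟨hx, fun H e _ h => ?_⟩,
    Set.Subset.antisymm (fun x hx => hx.1) fun x hx => ⟨hx, fun H e _ h => ?_⟩,
    Set.Subset.antisymm (fun x hx => hx.1) fun x hx => ⟨hx, fun H e _ h => ?_⟩⟩
  · obtain ⟨⟨v, h1, h2, -⟩, -, -⟩ := curves hG hB hδ hle hne hx
    exact h x ⟨v, h1, 1, one_ne_zero, h2.symm⟩
  · obtain ⟨-, ⟨f, h1, h2, -⟩, -⟩ := curves hG hB hδ hle hne hx
    exact h x ⟨f, h1, 0, h2.symm⟩
  · obtain ⟨-, -, ⟨f, h1, ⟨z, hz, h2⟩, -⟩⟩ := curves hG hB hδ hle hne hx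
    exact h x ⟨f, h1, z, hz, h2.symm⟩

omit [Fintype ι] in
/-- closed sets are invariant -/
theorem closed_same {Ξ : Set (Fin n → ℂ)} (hΞ : IsClosedIn w G B Ξ)
    {x y : Fin n → ℂ} (hx : x ∈ Cone G B) (h : Same w x y) (hy : y ∈ Ξ) : x ∈ Ξ := by
  obtain ⟨S, hS, rfl⟩ := hΞ
  refine ⟨hx, fun H hH => ?_⟩
  obtain ⟨e, he⟩ := hS H hH
  obtain ⟨c, hc, rfl⟩ := h
  have h1 := hy.2 H hH
  rw [eval_act he] at h1
  exact (mul_eq_zero.mp h1).resolve_left (pow_ne_zero _ hc)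

/-- **No hyperbolicity.** -/
theorem not_pseudo (hG : ∀ j, IsWeightedHomogeneous w (G j) (d j))
    (hB : IsWeightedHomogeneous w B δ) (hδ : 1 ≤ δ) (hle : ∑ j, d j + δ ≤ ∑ i, w i)
    (hne : ∃ v, 1 ≤ v ∧ (Finset.univ.filter fun i => w i = v).card ≠
      (Finset.univ.filter fun j => d j = v).card + if δ = v then 1 else 0) :
    ¬ PseudoBrody w G B ∧ ¬ PseudoPicard w G B δ ∧ ¬ PseudoTorus w G B := by
  have key : ∀ Ξ, IsClosedIn w G B Ξ → (∀ x ∈ Cone G B, ∃ y ∈ Ξ, Same w x y) → Ξ = Cone G B := by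
    intro Ξ hΞ h
    refine Set.Subset.antisymm ?_ fun x hx => ?_
    · obtain ⟨S, -, rfl⟩ := hΞ
      exact fun x hx => hx.1
    · obtain ⟨y, hy, hxy⟩ := h x hx
      exact closed_same hΞ hx hxy hy
  refine ⟨?_, ?_, ?_⟩
  · rintro ⟨Ξ, h1, h2, h3⟩
    refine h2 (key Ξ h1 fun x hx => ?_)
    obtain ⟨-, ⟨f, h4, h5, -⟩, -⟩ := curves hG hB hδ hle hne hx
    exact ⟨f 0, h3 f h4 0, h5⟩
  · rintro ⟨Ξ, h1, h2, h3⟩
    refine h2 (key Ξ h1 fun x hx => ?_)
    obtain ⟨-, -, ⟨f, h4, ⟨z, hz, h5⟩, -⟩⟩ := curves hG hB hδ hle hne hx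
    exact ⟨f z, h3 f h4 z hz, h5⟩
  · rintro ⟨Ξ, h1, h2, h3⟩
    refine h2 (key Ξ h1 fun x hx => ?_)
    obtain ⟨⟨v, h4, h5, -⟩, -, -⟩ := curves hG hB hδ hle hne hx
    exact ⟨v 1, h3 v h4 1 one_ne_zero, h5⟩

end Pool.Agent.W235.GG
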