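import Pool.Agent.W235.CY.Final

/-!
Curves in complements of hypersurface sections in weighted projective varieties.
-/

set_option autoImplicit false

namespace Pool.Agent.W235.GG

open MvPolynomial
open Pool.Agent.H159R3.Exp (Laur)

variable {n : ℕ} {ι : Type}

/-- The action of a nonzero complex number with weights `w`. -/
def act (w : Fin n → ℕ) (c : ℂ) (x : Fin n → ℂ) : Fin n → ℂ := fun i => c ^ w i * x i

/-- Two points of the cone define the same point of the quotient. -/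
def Same (w : Fin n → ℕ) (x y : Fin n → ℂ) : Prop := ∃ c : ℂ, c ≠ 0 ∧ y = act w c x

/-- The cone over the variety `G = 0`, `B ≠ 0`. -/
def Cone (G : ι → MvPolynomial (Fin n) ℂ) (B : MvPolynomial (Fin n) ℂ) : Set (Fin n → ℂ) :=
  {x | (∀ j, eval x (G j) = 0) ∧ eval x B ≠ 0}

theorem eval_act {w : Fin n → ℕ} {H : MvPolynomial (Fin n) ℂ} {e : ℕ}
    (hH : IsWeightedHomogeneous w H e) (c : ℂ) (x : Fin n → ℂ) :
    eval (act w c x) H = c ^ e * eval x H := by
  rw [eval_eq', eval_eq', Finset.mul_sum]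
  refine Finset.sum_congr rfl fun α hα => ?_
  have h1 : ∑ i, w i * α i = e := by
    have := hH (mem_support_iff.mp hα)
    rw [Finsupp.weight_apply, Finsupp.sum_fintype _ _ (by simp)] at this
    rw [← this]
    exact Finset.sum_congr rfl fun i _ => by simp [mul_comm]
  have h2 : ∏ i, (act w c x i) ^ α i = c ^ e * ∏ i, x i ^ α i := by
    unfold act
    simp only [mul_pow, ← pow_mul]
    rw [Finset.prod_mul_distrib, Finset.prod_pow_eq_pow_sum, h1]
  rw [h2]
  ring

theorem laur_const {φ : ℂ → ℂ} (hφ : Laur φ) {δ : ℕ} (hδ : 1 ≤ δ) {a : ℂ}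
    (h : ∀ t, t ≠ 0 → φ t ^ δ = a) (t : ℂ) (ht : t ≠ 0) : φ t = φ 1 := by
  obtain ⟨M, Q, hQ⟩ := hφ
  have hfin : {c : ℂ | c ^ δ = a}.Finite := by
    have h1 : {c : ℂ | c ^ δ = a} ⊆ {c | (Polynomial.X ^ δ - Polynomial.C a).IsRoot c} := by
      intro c hc
      have hc' : c ^ δ = a := hc
      change Polynomial.eval c _ = 0
      simp [hc']
    refine (Polynomial.finite_setOfPred_isRoot ?_).subset h1
    exact (Polynomial.monic_X_pow_sub_C a (by omega)).ne_zero
  have hinf : ({t : ℂ | t ≠ 0}).Infinite := by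
    have := (Set.finite_singleton (0 : ℂ)).infinite_compl
    exact this
  obtain ⟨c, hc⟩ : ∃ c, ({t : ℂ | t ≠ 0 ∧ φ t = c}).Infinite := by
    by_contra hcon
    push Not at hcon
    apply hinf
    have h2 : {t : ℂ | t ≠ 0} ⊆ ⋃ c ∈ {c : ℂ | c ^ δ = a}, {t : ℂ | t ≠ 0 ∧ φ t = c} := by
      intro t ht
      simp only [Set.mem_iUnion]
      exact ⟨φ t, h t ht, ht, rfl⟩
    refine Set.Finite.subset (hfin.biUnion fun c _ => ?_) h2
    exact hcon c
  have hQc : Q = Polynomial.C c * Polynomial.X ^ M := by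
    refine Polynomial.eq_of_infinite_eval_eq _ _ (hc.mono ?_)
    intro t ht
    have ht' : t ≠ 0 ∧ φ t = c := ht
    change Q.eval t = _
    rw [← hQ t ht'.1, ht'.2]
    simp
  have key : ∀ s, s ≠ 0 → φ s = c := by
    intro s hs
    have h3 := hQ s hs
    rw [hQc] at h3
    simp only [Polynomial.eval_mul, Polynomial.eval_C, Polynomial.eval_pow, Polynomial.eval_X] at h3
    exact mul_right_cancel₀ (pow_ne_zero _ hs) h3
  rw [key t ht, key 1 one_ne_zero]

theorem Same.symm {w : Fin n → ℕ} {x y : Fin n → ℂ} (h : Same w x y) : Same w y x := by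
  obtain ⟨c, hc, rfl⟩ := h
  refine ⟨c⁻¹, inv_ne_zero hc, ?_⟩
  funext i
  simp only [act, ← mul_assoc, ← mul_pow, inv_mul_cancel₀ hc, one_pow, one_mul]

theorem Same.refl {w : Fin n → ℕ} (x : Fin n → ℂ) : Same w x x :=
  ⟨1, one_ne_zero, by funext i; simp [act]⟩

/-- **Laurent curves through every point** -/
theorem exists_curve [Fintype ι] {w : Fin n → ℕ} {G : ι → MvPolynomial (Fin n) ℂ} {d : ι → ℕ}
    (hG : ∀ j, IsWeightedHomogeneous w (G j) (d j)) {B : MvPolynomial (Fin n) ℂ} {δ : ℕ}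
    (hB : IsWeightedHomogeneous w B δ) (hδ : 1 ≤ δ) (hle : ∑ j, d j + δ ≤ ∑ i, w i)
    (hne : ∃ v, 1 ≤ v ∧ (Finset.univ.filter fun i => w i = v).card ≠
      (Finset.univ.filter fun j => d j = v).card + if δ = v then 1 else 0)
    {x : Fin n → ℂ} (hx : x ∈ Cone G B) :
    ∃ v : ℂ → Fin n → ℂ, (∀ i, Laur fun t => v t i) ∧
      (∀ t, t ≠ 0 → (∀ j, eval (v t) (G j) = 0) ∧ eval (v t) B = 1) ∧ Same w x (v 1) ∧
      (∀ i, w i = 0 → ∀ t, v t i = x i) ∧
      ∃ i, ∃ t, t ≠ 0 ∧ v t i ^ δ ≠ v 1 i ^ δ := by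
  obtain ⟨hx1, hx2⟩ := hx
  obtain ⟨c, hc⟩ := IsAlgClosed.exists_pow_nat_eq ((eval x B)⁻¹) (show 0 < δ by omega)
  have hc0 : c ≠ 0 := by
    rintro rfl
    rw [zero_pow (by omega)] at hc
    exact inv_ne_zero hx2 hc.symm
  have hx' : eval (act w c x) B = 1 := by
    rw [eval_act hB, hc, inv_mul_cancel₀ hx2]
  obtain ⟨v, h1, h2, h3, h4, t, ht, h5⟩ := Pool.Agent.W235.CY.exists_laurent (V := Fin n)
    (ι := Option ι) (w := w) (d := fun o => o.elim δ d) (by
      rw [Fintype.sum_option]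
      simp only [Option.elim]
      omega) (by
      obtain ⟨v, hv, hv'⟩ := hne
      refine ⟨v, hv, fun h => hv' ?_⟩
      unfold Pool.Agent.W235.CY.mult at h
      rw [h, Finset.card_filter, Finset.card_filter, Fintype.sum_option]
      simp only [Option.elim]
      rw [add_comm]
      congr!)
    (fun o => o.elim (B - 1) G) (by
      intro o α hα
      rw [← Pool.Agent.W235.CY.weight_eq]
      cases o with
      | none =>
        change α ∈ (B - 1).support at hα
        change Finsupp.weight w α ≤ δ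
        rw [mem_support_iff, coeff_sub] at hα
        by_cases h0 : α = 0
        · subst h0
          simp
        · have h1 : coeff α B ≠ 0 := by
            intro h
            apply hα
            rw [h, coeff_one, if_neg (Ne.symm h0), sub_zero]
          exact (hB h1).le
      | some j => exact (hG j (mem_support_iff.mp hα)).le) (act w c x) (by
      intro o
      cases o with
      | none => simp [hx']
      | some j =>
        change eval (act w c x) (G j) = 0
        rw [eval_act (hG j), hx1 j, mul_zero])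
  have h6 : ∀ t, t ≠ 0 → (∀ j, eval (v t) (G j) = 0) ∧ eval (v t) B = 1 := by
    intro t ht
    refine ⟨fun j => h2 t ht (some j), ?_⟩
    have := h2 t ht none
    change eval (v t) (B - 1) = 0 at this
    rw [map_sub, map_one, sub_eq_zero] at this
    exact this
  refine ⟨v, h1, h6, ⟨c, hc0, h3⟩, ?_, ?_⟩
  · intro i hi t
    rw [h4 i hi t, act, hi, pow_zero, one_mul]
  · by_contra hcon
    push Not at hcon
    apply h5
    rw [← h3]
    funext i
    exact laur_const (h1 i) hδ (a := v 1 i ^ δ) (fun s hs => hcon i s hs) t ht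

/-- The entire curve attached to a Laurent curve. -/
theorem differentiable_exp_comp {v : ℂ → Fin n → ℂ} (hv : ∀ i, Laur fun t => v t i) :
    Differentiable ℂ fun z : ℂ => v (Complex.exp z) := by
  rw [differentiable_pi]
  intro i
  obtain ⟨M, Q, hQ⟩ := hv i
  have h1 : (fun z : ℂ => v (Complex.exp z) i) =
      fun z => Q.eval (Complex.exp z) / Complex.exp z ^ M := by
    funext z
    rw [eq_div_iff (pow_ne_zero _ (Complex.exp_ne_zero z))]
    exact hQ _ (Complex.exp_ne_zero z)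
  rw [h1]
  have h2 : Differentiable ℂ fun z : ℂ => Q.eval (Complex.exp z) :=
    Q.differentiable.comp Complex.differentiable_exp
  exact h2.div (Complex.differentiable_exp.pow M) fun z => pow_ne_zero _ (Complex.exp_ne_zero z)

/-- Small solutions of `exp (1 / z) = s`. -/
theorem exists_small {s : ℂ} (hs : s ≠ 0) {ε : ℝ} (hε : 0 < ε) :
    ∃ z : ℂ, z ≠ 0 ∧ ‖z‖ < ε ∧ Complex.exp z⁻¹ = s := by
  obtain ⟨k, hk⟩ := exists_nat_gt ((ε⁻¹ + ‖Complex.log s‖) / (2 * Real.pi))
  have hpi := Real.pi_pos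
  rw [div_lt_iff₀ (by positivity)] at hk
  set u : ℂ := Complex.log s + k * (2 * Real.pi * Complex.I) with hu
  have h1 : ‖(k : ℂ) * (2 * Real.pi * Complex.I)‖ = k * (2 * Real.pi) := by
    simp [abs_of_pos hpi]
  have h2 : ε⁻¹ < ‖u‖ := by
    have h3 : ‖(k : ℂ) * (2 * Real.pi * Complex.I)‖ ≤ ‖u‖ + ‖Complex.log s‖ := by
      have : (k : ℂ) * (2 * Real.pi * Complex.I) = u - Complex.log s := by rw [hu]; ring
      rw [this]
      exact norm_sub_le _ _
    rw [h1] at h3
    linarith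
  have hu0 : u ≠ 0 := by
    intro h
    rw [h, norm_zero] at h2
    have := inv_pos.mpr hε
    linarith
  refine ⟨u⁻¹, inv_ne_zero hu0, ?_, ?_⟩
  · rw [norm_inv]
    exact inv_lt_of_inv_lt₀ hε h2
  · rw [inv_inv, hu, Complex.exp_add, Complex.exp_log hs, Complex.exp_nat_mul_two_pi_mul_I, mul_one]

/-- A nonconstant Laurent polynomial of `exp (1 / z)` is not meromorphic at the origin. -/
theorem not_meromorphicAt {ψ : ℂ → ℂ} {g : ℂ → ℂ} (hg : ∀ z, z ≠ 0 → g z = ψ (Complex.exp z⁻¹))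
    {t : ℂ} (ht : t ≠ 0) (hψ : ψ t ≠ ψ 1) : ¬ MeromorphicAt g 0 := by
  intro h
  have h1 : MeromorphicAt (fun z => g z - ψ 1) 0 := h.sub (MeromorphicAt.const _ _)
  have key : ∀ s : ℂ, s ≠ 0 → ∀ P : ℂ → Prop, (∀ᶠ z in nhdsWithin (0 : ℂ) {0}ᶜ, P z) →
      ∃ z, z ≠ 0 ∧ Complex.exp z⁻¹ = s ∧ P z := by
    intro s hs P hP
    rw [eventually_nhdsWithin_iff, Metric.eventually_nhds_iff] at hP
    obtain ⟨ε, hε, hP⟩ := hP
    obtain ⟨z, hz, hz1, hz2⟩ := exists_small hs hε
    exact ⟨z, hz, hz2, hP (by simpa using hz1) hz⟩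
  rcases h1.eventually_eq_zero_or_eventually_ne_zero with h2 | h2
  · obtain ⟨z, hz, hz1, hz2⟩ := key t ht _ h2
    rw [hg z hz, hz1, sub_eq_zero] at hz2
    exact hψ hz2
  · obtain ⟨z, hz, hz1, hz2⟩ := key 1 one_ne_zero _ h2
    apply hz2
    rw [hg z hz, hz1, sub_self]

end Pool.Agent.W235.GG
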